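import Pool.Agent.H59.L.S8.H176.DT.Stm3

/-!
# DT3-ALG: algebraic key polynomials

`alg' : S3_alg` of `Pool.Agent.H176.DT.Stm3`.  Elements which are up to smaller terms values of
polynomials of degree less than the degree of the key polynomial (`Sm`) form a group; a linear
relation between the polynomials belonging to the powers of such an element shows that its value is
torsion and that, if the value is one, its residue is algebraic.
-/

set_option autoImplicit false

universe u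

namespace Pool.Agent.Y317.DT3

open Pool.Agent.H176.DT IsLocalRing Polynomial

section ra

variable (E : Type u) {F : Type u} [Field E] [Field F] [Algebra E F] (V : ValuationSubring F)

/-- the map of the valuation rings -/
def rmap : (V.comap (algebraMap E F)) →+* V :=
  (algebraMap E F).restrict (V.comap (algebraMap E F)) V fun _ hx => hx

theorem rmap_coe (x : V.comap (algebraMap E F)) : (rmap E V x : F) = algebraMap E F x := rfl

instance rmap_local : IsLocalHom (rmap E V) := by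
  constructor
  intro x hx
  obtain ⟨y, hy⟩ := isUnit_iff_exists_inv.1 hx
  have h1 : algebraMap E F x * (y : F) = 1 := by
    have := congrArg (fun z : V => (z : F)) hy
    simpa [rmap_coe] using this
  have hx0 : (x : E) ≠ 0 := by
    intro h
    rw [h, map_zero, zero_mul] at h1
    exact zero_ne_one h1
  have h2 : algebraMap E F (x : E)⁻¹ = y := by
    rw [map_inv₀]
    exact inv_eq_of_mul_eq_one_right h1
  have h3 : (x : E)⁻¹ ∈ V.comap (algebraMap E F) := by
    rw [ValuationSubring.mem_comap, h2]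
    exact y.2
  refine isUnit_iff_exists_inv.2 ⟨⟨(x : E)⁻¹, h3⟩, ?_⟩
  ext
  exact mul_inv_cancel₀ hx0

/-- the map of the residue fields -/
noncomputable def rr : ResidueField (V.comap (algebraMap E F)) →+* ResidueField V :=
  ResidueField.map (rmap E V)

theorem rr_comp : (rr E V).comp (residue (V.comap (algebraMap E F))) =
    (residue V).comp (rmap E V) := by
  ext x
  exact ResidueField.map_residue (rmap E V) x

/-- residually algebraic elements -/
def RA (z : F) : Prop := ∃ hz : z ∈ V, (rr E V).IsIntegralElem (residue V ⟨z, hz⟩)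

variable {E V}

theorem RA.add {z w : F} (hz : RA E V z) (hw : RA E V w) : RA E V (z + w) := by
  obtain ⟨h1, h2⟩ := hz
  obtain ⟨h3, h4⟩ := hw
  refine ⟨V.add_mem _ _ h1 h3, ?_⟩
  have h5 := RingHom.IsIntegralElem.add _ h2 h4
  rw [← map_add] at h5
  exact h5

theorem RA.mul {z w : F} (hz : RA E V z) (hw : RA E V w) : RA E V (z * w) := by
  obtain ⟨h1, h2⟩ := hz
  obtain ⟨h3, h4⟩ := hw
  refine ⟨V.mul_mem _ _ h1 h3, ?_⟩
  have h5 := RingHom.IsIntegralElem.mul _ h2 h4
  rw [← map_mul] at h5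
  exact h5

theorem RA.one : RA E V (1 : F) := by
  refine ⟨V.one_mem, ?_⟩
  have h5 := (rr E V).isIntegralElem_one
  rw [← map_one (residue V)] at h5
  exact h5

theorem RA.of_lt {z : F} (hz : V.valuation z < 1) : RA E V z := by
  have h1 : z ∈ V := (V.valuation_le_one_iff z).1 hz.le
  refine ⟨h1, ?_⟩
  have h2 : residue V ⟨z, h1⟩ = 0 := by
    rw [residue_eq_zero_iff]
    exact (V.valuation_lt_one_iff ⟨z, h1⟩).2 hz
  rw [h2]
  exact (rr E V).isIntegralElem_zero

theorem RA.zero : RA E V (0 : F) := RA.of_lt (by rw [map_zero]; exact zero_lt_one)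

theorem RA.pow {z : F} (hz : RA E V z) (n : ℕ) : RA E V (z ^ n) := by
  induction n with
  | zero => rw [pow_zero]; exact RA.one
  | succ n ih => rw [pow_succ]; exact ih.mul hz

theorem RA.sum {ι : Type*} (s : Finset ι) {z : ι → F} (hz : ∀ i ∈ s, RA E V (z i)) :
    RA E V (∑ i ∈ s, z i) := by
  classical
  induction s using Finset.induction_on with
  | empty => rw [Finset.sum_empty]; exact RA.zero
  | insert a s ha ih =>
    rw [Finset.sum_insert ha]
    exact (hz a (Finset.mem_insert_self a s)).add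
      (ih fun i hi => hz i (Finset.mem_insert_of_mem hi))

theorem RA.inv {z : F} (hz : RA E V z) (h1 : V.valuation z = 1) : RA E V z⁻¹ := by
  obtain ⟨h2, h3⟩ := hz
  have h4 : V.valuation z⁻¹ = 1 := by rw [map_inv₀, h1, inv_one]
  have h5 : z⁻¹ ∈ V := (V.valuation_le_one_iff _).1 h4.le
  refine ⟨h5, ?_⟩
  have hz0 : z ≠ 0 := by
    intro h
    rw [h, map_zero] at h1
    exact zero_ne_one h1
  have h6 : residue V ⟨z⁻¹, h5⟩ = (residue V ⟨z, h2⟩)⁻¹ := by
    refine eq_inv_of_mul_eq_one_left ?_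
    rw [← map_mul, ← map_one (residue V)]
    congr 1
    ext
    exact inv_mul_cancel₀ hz0
  rw [h6]
  let := (rr E V).toAlgebra
  exact IsIntegral.inv (R := ResidueField (V.comap (algebraMap E F))) h3

theorem RA.of_pow {z : F} {n : ℕ} (hn : 0 < n) (hz : V.valuation z ≤ 1) (h : RA E V (z ^ n)) :
    RA E V z := by
  obtain ⟨h1, h2⟩ := h
  have h3 : z ∈ V := (V.valuation_le_one_iff z).1 hz
  refine ⟨h3, ?_⟩
  let := (rr E V).toAlgebra
  refine IsIntegral.of_pow (R := ResidueField (V.comap (algebraMap E F))) hn ?_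
  rw [← map_pow]
  exact h2

theorem residue_eval (z : V) (Q : (V.comap (algebraMap E F))[X]) :
    residue V (eval₂ (rmap E V) z Q) =
      eval₂ (rr E V) (residue V z) (Q.map (residue (V.comap (algebraMap E F)))) := by
  rw [hom_eval₂, eval₂_map, rr_comp]

theorem coe_eval (z : V) (Q : (V.comap (algebraMap E F))[X]) :
    ((eval₂ (rmap E V) z Q : V) : F) =
      aeval (z : F) (Q.map (V.comap (algebraMap E F)).subtype) := by
  have h1 : ((eval₂ (rmap E V) z Q : V) : F) = V.subtype (eval₂ (rmap E V) z Q) := rfl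
  rw [h1, hom_eval₂, aeval_def, eval₂_map]
  rfl

/-- residually algebraic elements and monic polynomials -/
theorem RA.poly {z : F} (h : RA E V z) : ∃ h : E[X], h.Monic ∧
    (∀ i, algebraMap E F (h.coeff i) ∈ V) ∧ V.valuation (aeval z h) < 1 := by
  obtain ⟨hz, q, hq, hq0⟩ := h
  have h1 : q ∈ lifts (residue (V.comap (algebraMap E F))) := by
    rw [mem_lifts]
    exact map_surjective _ residue_surjective q
  obtain ⟨Q, hQ, -, hQm⟩ := lifts_and_natDegree_eq_and_monic h1 hq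
  refine ⟨Q.map (V.comap (algebraMap E F)).subtype, hQm.map _, ?_, ?_⟩
  · intro i
    rw [coeff_map]
    exact (Q.coeff i).2
  · have h2 := coe_eval (⟨z, hz⟩ : V) Q
    change _ = aeval z _ at h2
    rw [← h2]
    refine (V.valuation_lt_one_iff _).1 ?_
    rw [← residue_eq_zero_iff, residue_eval, hQ, hq0]

theorem RA.of_poly {z : F} (hz : z ∈ V) {h : E[X]} (hm : h.Monic)
    (hc : ∀ i, algebraMap E F (h.coeff i) ∈ V) (hv : V.valuation (aeval z h) < 1) :
    RA E V z := by
  have h1 : h ∈ lifts (V.comap (algebraMap E F)).subtype := by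
    rw [lifts_iff_coeff_lifts]
    intro i
    exact ⟨⟨h.coeff i, hc i⟩, rfl⟩
  obtain ⟨Q, hQ, -, hQm⟩ := lifts_and_natDegree_eq_and_monic h1 hm
  refine ⟨hz, Q.map (residue (V.comap (algebraMap E F))), hQm.map _, ?_⟩
  rw [← residue_eval, residue_eq_zero_iff]
  refine (V.valuation_lt_one_iff _).2 ?_
  rw [coe_eval, hQ]
  exact hv

/-- a relation between the powers -/
theorem RA.of_rel {w : F} (hw : w ∈ V) {n : ℕ} (e : Fin n → E)
    (hA : ∀ j, algebraMap E F (e j) ∈ V) (j0 : Fin n) (h1 : e j0 = 1)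
    (hv : V.valuation (∑ j, algebraMap E F (e j) * w ^ (j : ℕ)) < 1) : RA E V w := by
  refine ⟨hw, ?_⟩
  let := (rr E V).toAlgebra
  have h2 : IsAlgebraic (ResidueField (V.comap (algebraMap E F))) (residue V ⟨w, hw⟩) := by
    refine ⟨∑ j : Fin n, C (residue (V.comap (algebraMap E F)) ⟨e j, hA j⟩) * X ^ (j : ℕ), ?_, ?_⟩
    · intro h3
      have h4 := congrArg (fun P => coeff P (j0 : ℕ)) h3
      simp only [finsetSum_coeff, coeff_C_mul_X_pow, coeff_zero] at h4
      rw [Finset.sum_eq_single j0] at h4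
      · rw [if_pos rfl] at h4
        have h5 : (⟨e j0, hA j0⟩ : V.comap (algebraMap E F)) = 1 := by
          ext
          exact h1
        rw [h5, map_one] at h4
        exact one_ne_zero h4
      · intro j _ hj
        rw [if_neg]
        intro h
        exact hj (Fin.ext h.symm)
      · intro h
        exact absurd (Finset.mem_univ j0) h
    · rw [map_sum]
      have h3 : ∀ j : Fin n, aeval (residue V ⟨w, hw⟩)
          (C (residue (V.comap (algebraMap E F)) ⟨e j, hA j⟩) * X ^ (j : ℕ)) =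
          residue V (rmap E V ⟨e j, hA j⟩ * ⟨w, hw⟩ ^ (j : ℕ)) := by
        intro j
        rw [map_mul, map_pow, aeval_X, aeval_C, map_mul, map_pow]
        congr 1
      rw [Finset.sum_congr rfl fun j _ => h3 j, ← map_sum, residue_eq_zero_iff]
      refine (V.valuation_lt_one_iff _).2 ?_
      have h4 : ((∑ j : Fin n, rmap E V ⟨e j, hA j⟩ * ⟨w, hw⟩ ^ (j : ℕ) : V) : F) =
          ∑ j, algebraMap E F (e j) * w ^ (j : ℕ) := by
        rw [← V.subtype_apply, map_sum]
        refine Finset.sum_congr rfl fun j _ => ?_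
        rw [map_mul, map_pow]
        rfl
      rw [h4]
      exact hv
  exact h2.isIntegral

end ra

section kp

variable {E F : Type u} [Field E] [Field F] [Algebra E F] {V : ValuationSubring F} {θ : F}
  {ϕ : E[X]} {n : ℕ} {β : Fin n → E[X]}

theorem aeval_ne (hθ : Transcendental E θ) {f : E[X]} (hf : f ≠ 0) : aeval θ f ≠ 0 := fun h =>
  hθ ⟨f, hf, h⟩

theorem val_pos {w : F} (hw : w ≠ 0) : 0 < V.valuation w :=
  zero_lt_iff.2 ((V.valuation.ne_zero_iff).2 hw)

theorem val_eq {w v : F} (h : V.valuation (w - v) < V.valuation w) :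
    V.valuation v = V.valuation w := by
  have h1 := V.valuation.map_sub_eq_of_lt_left h
  rwa [sub_sub_cancel] at h1

/-! ### Torsion values -/

/-- a power has the value of an element of the base field -/
def Tor (E : Type u) {F : Type u} [Field E] [Field F] [Algebra E F] (V : ValuationSubring F)
    (w : F) : Prop :=
  ∃ N : ℕ, 0 < N ∧ ∃ a : E, V.valuation (w ^ N) = V.valuation (algebraMap E F a)

theorem Tor.mul {z w : F} (hz : Tor E V z) (hw : Tor E V w) : Tor E V (z * w) := by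
  obtain ⟨N, hN, a, ha⟩ := hz
  obtain ⟨M, hM, b, hb⟩ := hw
  refine ⟨N * M, Nat.mul_pos hN hM, a ^ M * b ^ N, ?_⟩
  have h1 : (z * w) ^ (N * M) = (z ^ N) ^ M * (w ^ M) ^ N := by
    rw [mul_pow, pow_mul, mul_comm N M, pow_mul w]
  rw [h1, map_mul, map_pow, ha, map_pow, hb, map_mul, map_mul, map_pow, map_pow, map_pow, map_pow]

theorem Tor.inv {z : F} (hz : Tor E V z) : Tor E V z⁻¹ := by
  obtain ⟨N, hN, a, ha⟩ := hz
  refine ⟨N, hN, a⁻¹, ?_⟩
  rw [inv_pow, map_inv₀, ha, map_inv₀, map_inv₀]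

theorem Tor.pow {z : F} (hz : Tor E V z) (k : ℕ) : Tor E V (z ^ k) := by
  obtain ⟨N, hN, a, ha⟩ := hz
  refine ⟨N, hN, a ^ k, ?_⟩
  rw [← pow_mul, mul_comm, pow_mul, map_pow, ha, map_pow, map_pow]

theorem Tor.congr {z w : F} (hz : Tor E V z) (h : V.valuation w = V.valuation z) :
    Tor E V w := by
  obtain ⟨N, hN, a, ha⟩ := hz
  exact ⟨N, hN, a, by rw [map_pow, h, ← map_pow, ha]⟩

theorem Tor.of_eq {w : F} (hw : w ≠ 0) {a b : E} (hb : b ≠ 0) {i k : ℕ} (hik : i < k)
    (h : V.valuation (algebraMap E F a * w ^ i) = V.valuation (algebraMap E F b * w ^ k)) :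
    Tor E V w := by
  refine ⟨k - i, by omega, a / b, ?_⟩
  have hb' : algebraMap E F b ≠ 0 := (_root_.map_ne_zero _).2 hb
  have h1 : w ^ (k - i) = (algebraMap E F b * w ^ k) / (algebraMap E F b * w ^ i) := by
    rw [mul_div_mul_left _ _ hb', eq_div_iff (pow_ne_zero _ hw), ← pow_add,
      Nat.sub_add_cancel hik.le]
  rw [h1, map_div₀, ← h, ← map_div₀, map_div₀ (algebraMap E F),
    mul_div_mul_right _ _ (pow_ne_zero _ hw)]

/-! ### The group of the values of small degree -/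

/-- values of polynomials of small degree, up to smaller terms -/
def Sm (V : ValuationSubring F) (θ : F) (ϕ : E[X]) (w : F) : Prop :=
  w ≠ 0 ∧ ∃ d : E[X], d.degree < ϕ.degree ∧ V.valuation (w - aeval θ d) < V.valuation w

theorem Sm.self (hθ : Transcendental E θ) {d : E[X]} (hd : d.degree < ϕ.degree) (h0 : d ≠ 0) :
    Sm V θ ϕ (aeval θ d) :=
  ⟨aeval_ne hθ h0, d, hd, by rw [sub_self, map_zero]; exact val_pos (aeval_ne hθ h0)⟩

theorem Sm.const (h : KP V θ ϕ β) {a : E} (ha : a ≠ 0) : Sm V θ ϕ (algebraMap E F a) := by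
  have h1 : algebraMap E F a ≠ 0 := (_root_.map_ne_zero _).2 ha
  refine ⟨h1, C a, ?_, ?_⟩
  · rw [degree_C ha]
    exact natDegree_pos_iff_degree_pos.1 h.deg
  · rw [aeval_C, sub_self, map_zero]
    exact val_pos h1

theorem Sm.mul (h : KP V θ ϕ β) {w v : F} (hw : Sm V θ ϕ w) (hv : Sm V θ ϕ v) :
    Sm V θ ϕ (w * v) := by
  obtain ⟨w0, d, hd, hdw⟩ := hw
  obtain ⟨v0, c, hc, hcv⟩ := hv
  have e1 := val_eq hdw
  have e2 := val_eq hcv
  have d0 : d ≠ 0 := by
    rintro rfl
    rw [map_zero, map_zero] at e1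
    exact (val_pos w0).ne e1
  have c0 : c ≠ 0 := by
    rintro rfl
    rw [map_zero, map_zero] at e2
    exact (val_pos v0).ne e2
  refine ⟨mul_ne_zero w0 v0, d * c %ₘ ϕ, degree_modByMonic_lt _ h.monic, ?_⟩
  have k := h.key d c hd hc d0 c0
  have e3 : w * v - aeval θ (d * c %ₘ ϕ) = (w - aeval θ d) * v + aeval θ d * (v - aeval θ c) +
      aeval θ ((d * c /ₘ ϕ) * ϕ) := by
    have e4 : d * c %ₘ ϕ = d * c - (d * c /ₘ ϕ) * ϕ := by
      have := modByMonic_add_div (d * c) ϕ
      linear_combination this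
    rw [e4, map_sub, map_mul (aeval θ) d c]
    ring
  rw [e3]
  refine V.valuation.map_add_lt (V.valuation.map_add_lt ?_ ?_) ?_
  · rw [map_mul, map_mul]
    exact mul_lt_mul_of_pos_right hdw (val_pos v0)
  · rw [map_mul, map_mul, e1]
    exact mul_lt_mul_of_pos_left hcv (val_pos w0)
  · refine k.trans_eq ?_
    rw [map_mul, map_mul, e1, e2, map_mul]

theorem Sm.pow (h : KP V θ ϕ β) {w : F} (hw : Sm V θ ϕ w) (k : ℕ) : Sm V θ ϕ (w ^ k) := by
  induction k with
  | zero =>
    have h1 := Sm.const h (one_ne_zero (α := E))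
    rw [map_one] at h1
    rwa [pow_zero]
  | succ k ih =>
    rw [pow_succ]
    exact ih.mul h hw

/-- a relation between the powers -/
theorem Sm.rel (h : KP V θ ϕ β) {w : F} (hw : Sm V θ ϕ w) :
    ∃ (e : Fin (n + 1) → E) (j0 : Fin (n + 1)), e j0 ≠ 0 ∧
      (∀ j, V.valuation (algebraMap E F (e j) * w ^ (j : ℕ)) ≤
        V.valuation (algebraMap E F (e j0) * w ^ (j0 : ℕ))) ∧
      V.valuation (∑ j, algebraMap E F (e j) * w ^ (j : ℕ)) <
        V.valuation (algebraMap E F (e j0) * w ^ (j0 : ℕ)) := by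
  classical
  have h1 : ∀ j : Fin (n + 1), ∃ d : E[X], d.degree < ϕ.degree ∧
      V.valuation (w ^ (j : ℕ) - aeval θ d) < V.valuation (w ^ (j : ℕ)) :=
    fun j => (hw.pow h j).2
  choose d hd hdw using h1
  choose c hc using fun j => h.span (d j) (hd j)
  have h2 : ¬ LinearIndependent E c := by
    intro h3
    have h4 := h3.fintype_card_le_finrank
    rw [Fintype.card_fin, Module.finrank_fin_fun] at h4
    omega
  obtain ⟨e, he, j1, hj1⟩ := Fintype.not_linearIndependent_iff.1 h2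
  have h3 : ∑ j, C (e j) * d j = 0 := by
    have h4 : ∀ j, C (e j) * d j = ∑ i, C (e j * c j i) * β i := by
      intro j
      conv_lhs => rw [hc j]
      rw [Finset.mul_sum]
      refine Finset.sum_congr rfl fun i _ => ?_
      rw [C_mul, mul_assoc]
    rw [Finset.sum_congr rfl fun j _ => h4 j, Finset.sum_comm]
    refine Finset.sum_eq_zero fun i _ => ?_
    rw [← Finset.sum_mul, ← map_sum]
    have h5 := congrFun he i
    rw [Finset.sum_apply] at h5
    simp only [Pi.smul_apply, smul_eq_mul, Pi.zero_apply] at h5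
    rw [h5, map_zero, zero_mul]
  have h4 : ∑ j, algebraMap E F (e j) * aeval θ (d j) = 0 := by
    have h5 := congrArg (aeval θ) h3
    rw [map_sum, map_zero] at h5
    rw [← h5]
    refine Finset.sum_congr rfl fun j _ => ?_
    rw [map_mul, aeval_C]
  obtain ⟨j0, -, hj0⟩ := Finset.exists_max_image Finset.univ
    (fun j : Fin (n + 1) => V.valuation (algebraMap E F (e j) * w ^ (j : ℕ)))
    Finset.univ_nonempty
  have hpos : ∀ j, e j ≠ 0 → 0 < V.valuation (algebraMap E F (e j) * w ^ (j : ℕ)) :=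
    fun j hj => val_pos (mul_ne_zero ((_root_.map_ne_zero _).2 hj) (pow_ne_zero _ hw.1))
  have h5 := (hpos j1 hj1).trans_le (hj0 j1 (Finset.mem_univ _))
  refine ⟨e, j0, ?_, fun j => hj0 j (Finset.mem_univ _), ?_⟩
  · intro h6
    rw [h6, map_zero, zero_mul, map_zero] at h5
    exact lt_irrefl _ h5
  · have h6 : ∑ j, algebraMap E F (e j) * w ^ (j : ℕ) =
        ∑ j, algebraMap E F (e j) * (w ^ (j : ℕ) - aeval θ (d j)) := by
      simp only [mul_sub, Finset.sum_sub_distrib, h4, sub_zero]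
    rw [h6]
    refine V.valuation.map_sum_lt h5.ne' fun j _ => ?_
    by_cases hj : e j = 0
    · rw [hj, map_zero, zero_mul, map_zero]
      exact h5
    · refine lt_of_lt_of_le ?_ (hj0 j (Finset.mem_univ _))
      rw [map_mul, map_mul]
      exact mul_lt_mul_of_pos_left (hdw j) (val_pos ((_root_.map_ne_zero _).2 hj))

theorem Sm.tor (h : KP V θ ϕ β) {w : F} (hw : Sm V θ ϕ w) : Tor E V w := by
  classical
  obtain ⟨e, j0, h0, h1, h2⟩ := hw.rel h
  have h3 : ∃ j, j ≠ j0 ∧ V.valuation (algebraMap E F (e j) * w ^ (j : ℕ)) =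
      V.valuation (algebraMap E F (e j0) * w ^ (j0 : ℕ)) := by
    by_contra hcon
    push Not at hcon
    have hne : V.valuation (algebraMap E F (e j0) * w ^ (j0 : ℕ)) ≠ 0 :=
      (val_pos (mul_ne_zero ((_root_.map_ne_zero _).2 h0) (pow_ne_zero _ hw.1))).ne'
    have h4 : V.valuation (∑ j ∈ Finset.univ.erase j0, algebraMap E F (e j) * w ^ (j : ℕ)) <
        V.valuation (algebraMap E F (e j0) * w ^ (j0 : ℕ)) := by
      refine V.valuation.map_sum_lt hne fun j hj => ?_
      exact lt_of_le_of_ne (h1 j) (hcon j (Finset.ne_of_mem_erase hj))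
    rw [← Finset.add_sum_erase _ _ (Finset.mem_univ j0),
      V.valuation.map_add_eq_of_lt_left h4] at h2
    exact lt_irrefl _ h2
  obtain ⟨j, hj, h4⟩ := h3
  have hj' : e j ≠ 0 := by
    intro h5
    rw [h5, map_zero, zero_mul, map_zero] at h4
    exact (val_pos (mul_ne_zero ((_root_.map_ne_zero _).2 h0) (pow_ne_zero _ hw.1))).ne h4
  have hv : (j : ℕ) ≠ j0 := fun h5 => hj (Fin.ext h5)
  rcases lt_or_gt_of_ne hv with h5 | h5
  · exact Tor.of_eq hw.1 h0 h5 h4
  · exact Tor.of_eq hw.1 hj' h5 h4.symm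

theorem Sm.ra (h : KP V θ ϕ β) {w : F} (hw : Sm V θ ϕ w) (hv : V.valuation w = 1) :
    RA E V w := by
  obtain ⟨e, j0, h0, h1, h2⟩ := hw.rel h
  have h0' : algebraMap E F (e j0) ≠ 0 := (_root_.map_ne_zero _).2 h0
  have hm : w ∈ V := (V.valuation_le_one_iff w).1 hv.le
  simp only [map_mul, map_pow, hv, one_pow, mul_one] at h1
  refine RA.of_rel hm (fun j => e j / e j0) ?_ j0 (div_self h0) ?_
  · intro j
    refine (V.valuation_le_one_iff _).1 ?_
    rw [map_div₀, map_div₀]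
    exact div_le_one_of_le₀ (h1 j) zero_le
  · have h3 : ∑ j : Fin (n + 1), algebraMap E F (e j / e j0) * w ^ (j : ℕ) =
        (algebraMap E F (e j0))⁻¹ * ∑ j, algebraMap E F (e j) * w ^ (j : ℕ) := by
      rw [Finset.mul_sum]
      refine Finset.sum_congr rfl fun j _ => ?_
      rw [map_div₀]
      field_simp
    have h4 := mul_lt_mul_of_pos_left h2 (val_pos (V := V) (inv_ne_zero h0'))
    rw [h3, map_mul]
    refine h4.trans_eq ?_
    rw [← map_mul, ← mul_assoc, inv_mul_cancel₀ h0', one_mul, map_pow, hv, one_pow]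

/-- quotients -/
theorem Sm.quot (h : KP V θ ϕ β) {w v : F} (hw : Sm V θ ϕ w) (hv : Sm V θ ϕ v)
    (hwv : V.valuation w = V.valuation v) : RA E V (w * v⁻¹) := by
  obtain ⟨N, hN, a, ha⟩ := hv.tor h
  have hv0 := hv.1
  have hvN : V.valuation (v ^ N) ≠ 0 := (val_pos (pow_ne_zero _ hv0)).ne'
  have ha0 : a ≠ 0 := by
    rintro rfl
    rw [map_zero, map_zero] at ha
    exact hvN ha
  have ha' : algebraMap E F a ≠ 0 := (_root_.map_ne_zero _).2 ha0
  have hc : Sm V θ ϕ (algebraMap E F a⁻¹) := Sm.const h (inv_ne_zero ha0)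
  have h1 : Sm V θ ϕ (w * v ^ (N - 1) * algebraMap E F a⁻¹) :=
    (hw.mul h (hv.pow h _)).mul h hc
  have h2 : Sm V θ ϕ (v ^ N * algebraMap E F a⁻¹) := (hv.pow h _).mul h hc
  have e2 : V.valuation (v ^ N * algebraMap E F a⁻¹) = 1 := by
    rw [map_mul, ha, ← map_mul, ← map_mul, mul_inv_cancel₀ ha0, map_one, map_one]
  have e3 : v * v ^ (N - 1) = v ^ N := by
    rw [← pow_succ', Nat.sub_add_cancel hN]
  have e1 : V.valuation (w * v ^ (N - 1) * algebraMap E F a⁻¹) = 1 := by
    rw [map_mul, map_mul, hwv, ← map_mul, e3, ← map_mul, e2]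
  have h3 := (h1.ra h e1).mul ((h2.ra h e2).inv e2)
  have e4 : w * v ^ (N - 1) * algebraMap E F a⁻¹ * (v ^ N * algebraMap E F a⁻¹)⁻¹ =
      w * v⁻¹ := by
    rw [← e3, map_inv₀]
    field_simp
  rwa [e4] at h3

theorem alg_id (x y α p : F) (hy : y ≠ 0) (hα : α ≠ 0) (hp : p ≠ 0) (k l N : ℕ) :
    (x * p ^ k * (y * p ^ l)⁻¹) ^ N = x ^ N * α ^ k * (y ^ N * α ^ l)⁻¹ *
      ((p ^ N * α⁻¹) ^ k * ((p ^ N * α⁻¹) ^ l)⁻¹) := by
  have h1 : α ^ k ≠ 0 := pow_ne_zero _ hα
  have h2 : α ^ l ≠ 0 := pow_ne_zero _ hα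
  have h3 : (p ^ l) ^ N ≠ 0 := pow_ne_zero _ (pow_ne_zero _ hp)
  have h4 : y ^ N ≠ 0 := pow_ne_zero _ hy
  have e1 : (p ^ N) ^ k = (p ^ k) ^ N := by rw [← pow_mul, ← pow_mul, mul_comm]
  have e2 : (p ^ N) ^ l = (p ^ l) ^ N := by rw [← pow_mul, ← pow_mul, mul_comm]
  rw [mul_pow, mul_pow, inv_pow, mul_pow, mul_pow, mul_pow, inv_pow, inv_pow, e1, e2]
  generalize (p ^ k) ^ N = P at *
  generalize (p ^ l) ^ N = Q at *
  generalize α ^ k = A at *
  generalize α ^ l = B at *
  generalize y ^ N = Y at *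
  field_simp

theorem quot_id {x y G : F} (hG : G ≠ 0) : x * G⁻¹ * (y * G⁻¹)⁻¹ = x * y⁻¹ := by
  rw [mul_inv, inv_inv, mul_mul_mul_comm, inv_mul_cancel₀ hG, mul_one]

/-- the terms -/
theorem term_ra (hθ : Transcendental E θ) (h : KP V θ ϕ β) {N : ℕ} (hN : 0 < N) {a : E}
    (ha0 : a ≠ 0) (ha : V.valuation (aeval θ ϕ ^ N) = V.valuation (algebraMap E F a))
    (hy : RA E V (aeval θ ϕ ^ N * (algebraMap E F a)⁻¹)) {d c : E[X]}
    (hd : d.degree < ϕ.degree) (hc : c.degree < ϕ.degree) (hc0 : c ≠ 0) (k l : ℕ)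
    (hle : V.valuation (aeval θ d * aeval θ ϕ ^ k) ≤ V.valuation (aeval θ c * aeval θ ϕ ^ l)) :
    RA E V (aeval θ d * aeval θ ϕ ^ k * (aeval θ c * aeval θ ϕ ^ l)⁻¹) := by
  obtain ⟨p, hp⟩ : ∃ p, p = aeval θ ϕ := ⟨_, rfl⟩
  have hp0 : p ≠ 0 := by rw [hp]; exact aeval_ne hθ h.monic.ne_zero
  rw [← hp] at ha hy hle ⊢
  have hcθ := aeval_ne hθ hc0
  have hG : aeval θ c * p ^ l ≠ 0 := mul_ne_zero hcθ (pow_ne_zero _ hp0)
  have ha' : algebraMap E F a ≠ 0 := (_root_.map_ne_zero _).2 ha0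
  rcases hle.lt_or_eq with hlt | heq
  · refine RA.of_lt ?_
    have h1 := mul_lt_mul_of_pos_right hlt (val_pos (V := V) (inv_ne_zero hG))
    rw [← map_mul, ← map_mul, mul_inv_cancel₀ hG, map_one] at h1
    exact h1
  · have hd0 : d ≠ 0 := by
      rintro rfl
      rw [map_zero, zero_mul, map_zero] at heq
      exact (val_pos hG).ne heq
    have hdθ := aeval_ne hθ hd0
    have ht : V.valuation (aeval θ d * p ^ k * (aeval θ c * p ^ l)⁻¹) = 1 := by
      rw [map_mul, heq, ← map_mul, mul_inv_cancel₀ hG, map_one]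
    refine RA.of_pow hN ht.le ?_
    have hy1 : V.valuation (p ^ N * (algebraMap E F a)⁻¹) = 1 := by
      rw [map_mul, ha, ← map_mul, mul_inv_cancel₀ ha', map_one]
    have hA : Sm V θ ϕ (aeval θ d ^ N * algebraMap E F a ^ k) :=
      ((Sm.self hθ hd hd0).pow h N).mul h ((Sm.const h ha0).pow h k)
    have hB : Sm V θ ϕ (aeval θ c ^ N * algebraMap E F a ^ l) :=
      ((Sm.self hθ hc hc0).pow h N).mul h ((Sm.const h ha0).pow h l)
    have e1 : (aeval θ d * p ^ k * (aeval θ c * p ^ l)⁻¹) ^ N =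
        aeval θ d ^ N * algebraMap E F a ^ k * (aeval θ c ^ N * algebraMap E F a ^ l)⁻¹ *
        ((p ^ N * (algebraMap E F a)⁻¹) ^ k * ((p ^ N * (algebraMap E F a)⁻¹) ^ l)⁻¹) :=
      alg_id _ _ _ _ hcθ ha' hp0 k l N
    have hAB : V.valuation (aeval θ d ^ N * algebraMap E F a ^ k) =
        V.valuation (aeval θ c ^ N * algebraMap E F a ^ l) := by
      have e2 := congrArg V.valuation e1
      rw [map_pow, ht, one_pow, map_mul, map_mul V.valuation (_ ^ k), map_inv₀ V.valuation (_ ^ l),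
        map_pow V.valuation _ k, map_pow V.valuation _ l, hy1, one_pow, one_pow, inv_one, mul_one,
        mul_one, map_mul V.valuation _ (_)⁻¹, map_inv₀] at e2
      exact (mul_inv_eq_one₀ (val_pos hB.1).ne').1 e2.symm
    rw [e1]
    exact (hA.quot h hB hAB).mul ((hy.pow k).mul ((hy.pow l).inv (by
      rw [map_pow, hy1, one_pow])))

/-- the largest term -/
theorem top_term (hθ : Transcendental E θ) {f : E[X]} (hf : f ≠ 0) {N : ℕ} {d : ℕ → E[X]}
    (hd : Exn ϕ N d f) (hle : ∀ k < N, V.valuation (aeval θ (d k * ϕ ^ k)) ≤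
      V.valuation (aeval θ f)) :
    ∃ k < N, d k ≠ 0 ∧ V.valuation (aeval θ (d k) * aeval θ ϕ ^ k) =
      V.valuation (aeval θ f) := by
  have hf0 := val_pos (V := V) (aeval_ne hθ hf)
  have h1 : ∃ k < N, V.valuation (aeval θ (d k * ϕ ^ k)) = V.valuation (aeval θ f) := by
    by_contra hcon
    push Not at hcon
    have h2 : V.valuation (∑ k ∈ Finset.range N, aeval θ (d k * ϕ ^ k)) <
        V.valuation (aeval θ f) := by
      refine V.valuation.map_sum_lt hf0.ne' fun k hk => ?_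
      have hk' := Finset.mem_range.1 hk
      exact lt_of_le_of_ne (hle k hk') (hcon k hk')
    rw [← map_sum, ← hd.sum] at h2
    exact lt_irrefl _ h2
  obtain ⟨k, hk, h2⟩ := h1
  refine ⟨k, hk, ?_, ?_⟩
  · intro h3
    rw [h3, zero_mul, map_zero, map_zero] at h2
    exact hf0.ne h2
  · rw [← map_pow, ← map_mul]
    exact h2

/-- **DT3-ALG** -/
theorem alg' : S3_alg.{u} := by
  intro E F _ _ _ V θ ϕ n β hθ h hNA f g hf hg hDf hDg
  unfold NA at hNA
  push Not at hNA
  obtain ⟨⟨N, hN, a, ha⟩, h2⟩ := hNA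
  have hp0 : aeval θ ϕ ≠ 0 := aeval_ne hθ h.monic.ne_zero
  have ha0 : a ≠ 0 := by
    rintro rfl
    rw [map_zero, map_zero] at ha
    exact (val_pos (pow_ne_zero N hp0)).ne ha.symm
  have ha' : algebraMap E F a ≠ 0 := (_root_.map_ne_zero _).2 ha0
  obtain ⟨q, hq, hqc, hqv⟩ := h2 N a hN ha0 ha
  have hy1 : V.valuation (aeval θ ϕ ^ N * (algebraMap E F a)⁻¹) = 1 := by
    rw [map_mul, ha, ← map_mul, mul_inv_cancel₀ ha', map_one]
  have hy : RA E V (aeval θ ϕ ^ N * (algebraMap E F a)⁻¹) :=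
    RA.of_poly ((V.valuation_le_one_iff _).1 hy1.le) hq hqc hqv
  obtain ⟨Nf, df, hdf, hlf⟩ := hDf
  obtain ⟨Ng, dg, hdg, hlg⟩ := hDg
  obtain ⟨k, hk, hk0, hkv⟩ := top_term hθ hf hdf hlf
  obtain ⟨l, hl, hl0, hlv⟩ := top_term hθ hg hdg hlg
  have htp : Tor E V (aeval θ ϕ) := ⟨N, hN, a, ha⟩
  refine ⟨?_, ?_⟩
  · have t1 : Tor E V (aeval θ f) :=
      (((Sm.self hθ (hdf.deg k) hk0).tor h).mul (htp.pow k)).congr hkv.symm
    have t2 : Tor E V (aeval θ g) :=
      (((Sm.self hθ (hdg.deg l) hl0).tor h).mul (htp.pow l)).congr hlv.symm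
    obtain ⟨M, hM, b, hb⟩ := t1.mul t2.inv
    exact ⟨M, hM, b, hb⟩
  · intro hz
    apply RA.poly
    have hgθ := aeval_ne hθ hg
    have hG : aeval θ (dg l) * aeval θ ϕ ^ l ≠ 0 :=
      mul_ne_zero (aeval_ne hθ hl0) (pow_ne_zero _ hp0)
    have hfg : V.valuation (aeval θ f) = V.valuation (aeval θ g) := by
      rw [map_mul, map_inv₀] at hz
      exact (mul_inv_eq_one₀ (val_pos hgθ).ne').1 hz
    have key : ∀ {u : E[X]} {M : ℕ} {d : ℕ → E[X]}, Exn ϕ M d u →
        (∀ k < M, V.valuation (aeval θ (d k * ϕ ^ k)) ≤ V.valuation (aeval θ u)) →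
        V.valuation (aeval θ u) = V.valuation (aeval θ g) →
        RA E V (aeval θ u * (aeval θ (dg l) * aeval θ ϕ ^ l)⁻¹) := by
      intro u M d hd hle hu
      have e1 : aeval θ u * (aeval θ (dg l) * aeval θ ϕ ^ l)⁻¹ = ∑ k ∈ Finset.range M,
          aeval θ (d k) * aeval θ ϕ ^ k * (aeval θ (dg l) * aeval θ ϕ ^ l)⁻¹ := by
        conv_lhs => rw [hd.sum]
        rw [map_sum, Finset.sum_mul]
        refine Finset.sum_congr rfl fun k _ => ?_
        rw [map_mul, map_pow]
      rw [e1]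
      refine RA.sum _ fun k hk => ?_
      refine term_ra hθ h hN ha0 ha hy (hd.deg k) (hdg.deg l) hl0 k l ?_
      rw [hlv, ← hu, ← map_pow, ← map_mul]
      exact hle k (Finset.mem_range.1 hk)
    have r1 := key hdf hlf hfg
    have r2 := key hdg hlg rfl
    have v2 : V.valuation (aeval θ g * (aeval θ (dg l) * aeval θ ϕ ^ l)⁻¹) = 1 := by
      rw [map_mul, ← hlv, ← map_mul, mul_inv_cancel₀ hG, map_one]
    have r3 := r1.mul (r2.inv v2)
    have e2 : aeval θ f * (aeval θ (dg l) * aeval θ ϕ ^ l)⁻¹ *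
        (aeval θ g * (aeval θ (dg l) * aeval θ ϕ ^ l)⁻¹)⁻¹ = aeval θ f * (aeval θ g)⁻¹ :=
      quot_id hG
    rwa [e2] at r3

end kp

end Pool.Agent.Y317.DT3
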